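import Mathlib

namespace Pool.Agent.Results.MP_ae055e_co.Cex

/-- Euclidean distance of two lattice points. -/
noncomputable def ed {d : ℕ} (x y : Fin d → ℤ) : ℝ := √(∑ i, ((x i : ℝ) - y i) ^ 2)

/-- Different unordered pairs of distinct points of `S` have different distances. -/
def DD {d : ℕ} (S : Finset (Fin d → ℤ)) : Prop :=
  ∀ x ∈ S, ∀ y ∈ S, ∀ z ∈ S, ∀ w ∈ S, x ≠ y → z ≠ w → ed x y = ed z w → s(x, y) = s(z, w)

/-- `k_d(n)`. -/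
noncomputable def k (d n : ℕ) : ℕ :=
  sSup {m | ∃ S : Finset (Fin d → ℤ), (∀ x ∈ S, ∀ i, 1 ≤ x i ∧ x i ≤ n) ∧ DD S ∧ S.card = m}

structure Pt (p b : ℤ) where
  l : ℤ
  m : ℤ
  e0 : ℤ
  e1 : ℤ
  e2 : ℤ
  h : p ∣ e0 + b * e1 + b ^ 2 * e2 - (l + b ^ 2 * m) ^ 2
  l0 : 0 ≤ l
  l1 : 2 * l < b ^ 2
  a0 : 0 ≤ l + b ^ 2 * m
  a1 : 2 * (l + b ^ 2 * m) < b ^ 3

variable {p b : ℤ}

def Pt.A (x : Pt p b) : ℤ := x.l + b ^ 2 * x.m

def D (g : ℤ) (x y : Pt p b) : ℤ :=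
  (p * (x.e0 - y.e0) + (x.A - y.A)) ^ 2 + (p * (x.e1 - y.e1) + b * (x.A - y.A)) ^ 2 +
    (p * (x.e2 - y.e2) + b ^ 2 * (x.l - y.l) + g * (x.m - y.m)) ^ 2

theorem sm {z : ℤ} (h : p ∣ z) (a : -p < z) (c : z < p) : z = 0 :=
  Int.eq_zero_of_abs_lt_dvd h (abs_lt.2 ⟨a, c⟩)

theorem same (hp : Prime p) (hb : 2 ≤ b) (hbp : b ^ 3 < p) {g : ℤ} (hg : p ∣ g - b ^ 4)
    (x y z w : Pt p b) (n : x.A ≠ y.A) (u : x.A - y.A = z.A - w.A) (e : D g x y = D g z w) :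
    x.A = z.A ∧ y.A = w.A := by
  obtain ⟨l1, m1, a1, b1, c1, ⟨t1, h1⟩, i1, j1, k1, o1⟩ := x
  obtain ⟨l2, m2, a2, b2, c2, ⟨t2, h2⟩, i2, j2, k2, o2⟩ := y
  obtain ⟨l3, m3, a3, b3, c3, ⟨t3, h3⟩, i3, j3, k3, o3⟩ := z
  obtain ⟨l4, m4, a4, b4, c4, ⟨t4, h4⟩, i4, j4, k4, o4⟩ := w
  obtain ⟨s, hs⟩ := hg
  simp only [D, Pt.A] at *
  have b8 : 8 ≤ b ^ 3 := by nlinarith [sq_nonneg (b - 2)]
  have q : l1 - l2 - l3 + l4 = 0 :=
    sm (p := b ^ 2) ⟨-(m1 - m2 - m3 + m4), by linear_combination u⟩ (by omega) (by omega)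
  have q' : m1 - m2 - m3 + m4 = 0 := by
    have : b ^ 2 * (m1 - m2 - m3 + m4) = 0 := by linear_combination u - q
    exact (mul_eq_zero.1 this).resolve_left (by positivity)
  obtain rfl : l3 = l1 - l2 + l4 := by omega
  obtain rfl : m3 = m1 - m2 + m4 := by omega
  have E : p * ((a1 - a2) ^ 2 + (b1 - b2) ^ 2 + (c1 - c2) ^ 2 - (a3 - a4) ^ 2 - (b3 - b4) ^ 2 -
      (c3 - c4) ^ 2) + 2 * ((l1 - l2 + b ^ 2 * (m1 - m2)) * (a1 - a2 - a3 + a4) +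
      b * (l1 - l2 + b ^ 2 * (m1 - m2)) * (b1 - b2 - b3 + b4) +
      (b ^ 2 * (l1 - l2) + g * (m1 - m2)) * (c1 - c2 - c3 + c4)) = 0 :=
    mul_left_cancel₀ hp.ne_zero (by linear_combination e)
  have dv : p ∣ 4 * ((l1 - l2 + b ^ 2 * (m1 - m2)) * ((l1 - l2 + b ^ 2 * (m1 - m2)) *
      (l2 + b ^ 2 * m2 - (l4 + b ^ 2 * m4)))) :=
    ⟨-((a1 - a2) ^ 2 + (b1 - b2) ^ 2 + (c1 - c2) ^ 2 - (a3 - a4) ^ 2 - (b3 - b4) ^ 2 -
      (c3 - c4) ^ 2) - 2 * (l1 - l2 + b ^ 2 * (m1 - m2)) * (t1 - t2 - t3 + t4) -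
      2 * s * (m1 - m2) * (c1 - c2 - c3 + c4), by
      linear_combination E - 2 * (l1 - l2 + b ^ 2 * (m1 - m2)) * (h1 - h2 - h3 + h4) -
        2 * (m1 - m2) * (c1 - c2 - c3 + c4) * hs⟩
  have nu : ¬ p ∣ l1 - l2 + b ^ 2 * (m1 - m2) := fun h =>
    n (by linear_combination sm h (by linarith) (by linarith))
  have f := ((hp.dvd_or_dvd ((hp.dvd_or_dvd ((hp.dvd_or_dvd dv).resolve_left fun h =>
    absurd (sm h (by omega) (by omega)) (by norm_num))).resolve_left nu)).resolve_left nu)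
  have := sm f (by linarith) (by linarith)
  exact ⟨by linear_combination this, by linear_combination this⟩

theorem core (hp : Prime p) (hb : 2 ≤ b) (hbp : b ^ 3 < p) {g : ℤ} (hg : p ∣ g - b ^ 4)
    (x y z w : Pt p b) (n : x.A ≠ y.A) (e : D g x y = D g z w) :
    (x.A = z.A ∧ y.A = w.A) ∨ (x.A = w.A ∧ y.A = z.A) := by
  obtain ⟨s, hs⟩ := hg
  obtain rfl : g = b ^ 4 + p * s := by linear_combination hs
  have r : ∀ x y : Pt p b, p ∣ D (b ^ 4 + p * s) x y - (1 + b ^ 2 + b ^ 4) * (x.A - y.A) ^ 2 :=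
    fun x y => ⟨p * ((x.e0 - y.e0) ^ 2 + (x.e1 - y.e1) ^ 2 + (x.e2 - y.e2 + s * (x.m - y.m)) ^ 2) +
      2 * (x.A - y.A) * (x.e0 - y.e0 + b * (x.e1 - y.e1) + b ^ 2 * (x.e2 - y.e2 + s * (x.m - y.m))),
      by simp only [D, Pt.A]; ring⟩
  have dv : p ∣ (b ^ 2 + b + 1) * ((b ^ 2 - b + 1) * ((x.A - y.A - (z.A - w.A)) *
      (x.A - y.A - (w.A - z.A)))) := by
    have := dvd_sub (r z w) (r x y)
    rw [e] at this
    obtain ⟨t, ht⟩ := this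
    exact ⟨t, by linear_combination ht⟩
  have c1 : b ^ 2 + b + 1 ≤ b ^ 3 := by nlinarith [sq_nonneg (b - 2)]
  have c2 : 0 < b ^ 2 - b + 1 := by nlinarith
  have := x.a0; have := x.a1; have := y.a0; have := y.a1
  have := z.a0; have := z.a1; have := w.a0; have := w.a1
  rcases hp.dvd_or_dvd ((hp.dvd_or_dvd ((hp.dvd_or_dvd dv).resolve_left fun h =>
    absurd (sm h (by omega) (by omega)) (by omega))).resolve_left fun h =>
    absurd (sm h (by omega) (by omega)) (by omega)) with h | h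
  · have := sm h (by simp only [Pt.A]; omega) (by simp only [Pt.A]; omega)
    exact Or.inl (same hp hb hbp ⟨s, hs⟩ x y z w n (by omega) e)
  · have := sm h (by simp only [Pt.A]; omega) (by simp only [Pt.A]; omega)
    exact Or.inr (same hp hb hbp ⟨s, hs⟩ x y w z n (by omega) (e.trans (by simp only [D]; ring)))

def pt (p h : ℤ) (a : ℕ × ℕ) (h1 : (a.1 : ℤ) < h ^ 2) (h2 : (a.2 : ℤ) < h) : Pt p (2 * h) where
  l := a.1
  m := a.2
  e0 := (a.1 + (2 * h) ^ 2 * a.2) ^ 2 % p % (2 * h)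
  e1 := (a.1 + (2 * h) ^ 2 * a.2) ^ 2 % p / (2 * h) % (2 * h)
  e2 := (a.1 + (2 * h) ^ 2 * a.2) ^ 2 % p / (2 * h) / (2 * h)
  h := by
    generalize ((a.1 : ℤ) + (2 * h) ^ 2 * a.2) ^ 2 = t
    have e1 := Int.emod_add_mul_ediv t p
    have e2 := Int.emod_add_mul_ediv (t % p) (2 * h)
    have e3 := Int.emod_add_mul_ediv (t % p / (2 * h)) (2 * h)
    exact ⟨-(t / p), by linear_combination e1 + e2 + 2 * h * e3⟩
  l0 := by positivity
  l1 := by nlinarith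
  a0 := by positivity
  a1 := by
    have : (2 * h) ^ 2 * (a.2 : ℤ) ≤ (2 * h) ^ 2 * (h - 1) :=
      mul_le_mul_of_nonneg_left (by omega) (by positivity)
    nlinarith

def Y (g : ℤ) (x : Pt p b) : Fin 3 → ℤ :=
  ![p * x.e0 + x.A + 1, p * x.e1 + b * x.A + 1, p * x.e2 + b ^ 2 * x.l + g * x.m + 1]

theorem edY (g : ℤ) (x y : Pt p b) : ed (Y g x) (Y g y) = √((D g x y : ℤ) : ℝ) := by
  have : D g x y = ∑ i, (Y g x i - Y g y i) ^ 2 := by
    rw [Fin.sum_univ_three]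
    show _ = (p * x.e0 + x.A + 1 - (p * y.e0 + y.A + 1)) ^ 2 +
      (p * x.e1 + b * x.A + 1 - (p * y.e1 + b * y.A + 1)) ^ 2 +
      (p * x.e2 + b ^ 2 * x.l + g * x.m + 1 - (p * y.e2 + b ^ 2 * y.l + g * y.m + 1)) ^ 2
    simp only [D]
    ring
  rw [this, ed]
  push_cast
  rfl

theorem low (h : ℕ) (hh : 1 ≤ h) : h ^ 3 ≤ k 3 (100 * h ^ 4) := by
  obtain ⟨q, hq, q1, q2⟩ := Nat.exists_prime_lt_and_le_two_mul ((2 * h) ^ 3) (by positivity)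
  have hp := Nat.prime_iff_prime_int.1 hq
  have H : (1 : ℤ) ≤ h := by exact_mod_cast hh
  have Q1 : (2 * (h : ℤ)) ^ 3 < q := by exact_mod_cast q1
  have Q2 : (q : ℤ) ≤ 2 * (2 * (h : ℤ)) ^ 3 := by exact_mod_cast q2
  have Q0 : (0 : ℤ) < q := by exact_mod_cast hq.pos
  set g : ℤ := (2 * h) ^ 4 % q with hg
  have gd : (q : ℤ) ∣ g - (2 * h) ^ 4 :=
    ⟨-((2 * h) ^ 4 / q), by linear_combination Int.emod_add_mul_ediv ((2 * (h : ℤ)) ^ 4) q⟩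
  let P : Fin (h ^ 2) × Fin h → Pt q (2 * h) := fun a =>
    pt q h (a.1, a.2) (by exact_mod_cast a.1.2) (by exact_mod_cast a.2.2)
  have iA : ∀ a c, (P a).A = (P c).A → a = c := by
    intro a c e
    have a1 : ((a.1 : ℕ) : ℤ) < h ^ 2 := by exact_mod_cast a.1.2
    have c1 : ((c.1 : ℕ) : ℤ) < h ^ 2 := by exact_mod_cast c.1.2
    change ((a.1 : ℕ) : ℤ) + (2 * h) ^ 2 * (a.2 : ℕ) = (c.1 : ℕ) + (2 * h) ^ 2 * (c.2 : ℕ) at e
    have u : ((a.1 : ℕ) : ℤ) - (c.1 : ℕ) = 0 := sm (p := (2 * h) ^ 2)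
      ⟨(c.2 : ℕ) - (a.2 : ℕ), by linear_combination e⟩ (by nlinarith) (by nlinarith)
    have v : (2 * (h : ℤ)) ^ 2 * (((a.2 : ℕ) : ℤ) - (c.2 : ℕ)) = 0 := by linear_combination e - u
    have := (mul_eq_zero.1 v).resolve_left (by positivity)
    exact Prod.ext (Fin.ext (by omega)) (Fin.ext (by omega))
  have iY : Function.Injective fun a => Y g (P a) := by
    intro a c e
    have e0 : q * (P a).e0 + (P a).A + 1 = q * (P c).e0 + (P c).A + 1 := congrFun e 0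
    have := (P a).a0; have := (P a).a1; have := (P c).a0; have := (P c).a1
    have := sm (p := q) (z := (P a).A - (P c).A) ⟨(P c).e0 - (P a).e0, by linear_combination e0⟩
      (by simp only [Pt.A]; omega) (by simp only [Pt.A]; omega)
    exact iA _ _ (by omega)
  refine le_csSup ⟨(Fintype.piFinset fun _ : Fin 3 => Finset.Icc (1 : ℤ) (100 * h ^ 4 : ℕ)).card, ?_⟩
    ⟨Finset.univ.image fun a => Y g (P a), ?_, ?_, ?_⟩
  · rintro _ ⟨S, hS, -, rfl⟩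
    exact Finset.card_le_card fun x hx => Fintype.mem_piFinset.2 fun i => Finset.mem_Icc.2 (hS x hx i)
  · intro x hx i
    obtain ⟨a, -, rfl⟩ := Finset.mem_image.1 hx
    have a0 := (P a).a0
    have a1 := (P a).a1
    have l0 := (P a).l0
    have l1 := (P a).l1
    have m0 : 0 ≤ (P a).m := Int.natCast_nonneg _
    have m1 : (P a).m < h := by
      show ((a.2 : ℕ) : ℤ) < h
      exact_mod_cast a.2.2
    have h2 : (0 : ℤ) < 2 * h := by omega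
    have w0 := Int.emod_nonneg ((P a).A ^ 2) Q0.ne'
    have w1 := Int.emod_lt_of_pos ((P a).A ^ 2) Q0
    have x0 : 0 ≤ (P a).e0 := Int.emod_nonneg _ h2.ne'
    have x1 : (P a).e0 < 2 * h := Int.emod_lt_of_pos _ h2
    have y0 : 0 ≤ (P a).e1 := Int.emod_nonneg _ h2.ne'
    have y1 : (P a).e1 < 2 * h := Int.emod_lt_of_pos _ h2
    have z0 : 0 ≤ (P a).e2 := Int.ediv_nonneg (Int.ediv_nonneg w0 h2.le) h2.le
    have z1 : (P a).e2 < 4 * h :=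
      Int.ediv_lt_of_lt_mul h2 (Int.ediv_lt_of_lt_mul h2 (w1.trans_le (Q2.trans (by ring_nf; rfl))))
    have g0 : 0 ≤ g := Int.emod_nonneg _ Q0.ne'
    have g1 : g < q := Int.emod_lt_of_pos _ Q0
    have p3 : (1 : ℤ) ≤ h ^ 3 := one_le_pow₀ H
    have p4 : (h : ℤ) ^ 3 ≤ h ^ 4 := pow_le_pow_right₀ H (by norm_num)
    have ml : ∀ e c : ℤ, 0 ≤ e → e < c * h → 0 ≤ q * e ∧ q * e ≤ 16 * c * h ^ 4 := fun e c u v =>
      ⟨by positivity, (mul_le_mul Q2 v.le u (by positivity)).trans (by ring_nf; rfl)⟩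
    have X := ml _ 2 x0 x1
    have X1 := ml _ 2 y0 y1
    have X2 := ml _ 4 z0 z1
    have X3 := ml _ 1 m0 (by omega)
    have X4 : g * (P a).m ≤ q * (P a).m := mul_le_mul_of_nonneg_right g1.le m0
    have X5 : 0 ≤ g * (P a).m := by positivity
    have X6 : 0 ≤ (2 * (h : ℤ)) ^ 2 * (P a).l := by positivity
    have X7 : (2 * (h : ℤ)) ^ 2 * (2 * (P a).l) ≤ (2 * h) ^ 2 * (2 * h) ^ 2 :=
      mul_le_mul_of_nonneg_left l1.le (by positivity)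
    have X8 : 0 ≤ 2 * (h : ℤ) * (P a).A := mul_nonneg h2.le a0
    have X9 : 2 * (h : ℤ) * (2 * (P a).A) ≤ 2 * h * (2 * h) ^ 3 := mul_le_mul_of_nonneg_left a1.le h2.le
    change 0 ≤ (P a).A at a0
    change 2 * (P a).A < _ at a1
    push_cast
    fin_cases i
    · show 1 ≤ q * (P a).e0 + (P a).A + 1 ∧ q * (P a).e0 + (P a).A + 1 ≤ _
      constructor <;> linarith [X.1, X.2]
    · show 1 ≤ q * (P a).e1 + 2 * h * (P a).A + 1 ∧ q * (P a).e1 + 2 * h * (P a).A + 1 ≤ _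
      constructor <;> linarith [X1.1, X1.2]
    · show 1 ≤ q * (P a).e2 + (2 * h) ^ 2 * (P a).l + g * (P a).m + 1 ∧
        q * (P a).e2 + (2 * h) ^ 2 * (P a).l + g * (P a).m + 1 ≤ _
      constructor <;> linarith [X2.1, X2.2, X3.2]
  · intro x hx y hy z hz w hw n _ e
    obtain ⟨a, -, rfl⟩ := Finset.mem_image.1 hx
    obtain ⟨a', -, rfl⟩ := Finset.mem_image.1 hy
    obtain ⟨c, -, rfl⟩ := Finset.mem_image.1 hz
    obtain ⟨c', -, rfl⟩ := Finset.mem_image.1 hw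
    have nn : ∀ x y : Pt q (2 * h), (0 : ℝ) ≤ (D g x y : ℤ) := fun x y => by
      have : 0 ≤ D g x y := by unfold D; positivity
      exact_mod_cast this
    rw [edY, edY, Real.sqrt_inj (nn _ _) (nn _ _), Int.cast_inj] at e
    rcases core hp (by omega) Q1 gd _ _ _ _ (fun t => n (by rw [iA _ _ t])) e with t | t
    · rw [iA _ _ t.1, iA _ _ t.2]
    · rw [iA _ _ t.1, iA _ _ t.2, Sym2.eq_swap]
  · rw [Finset.card_image_of_injective _ iY]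
    simp [pow_succ]

theorem result : ¬ ∃ c : ℝ, 0 < c ∧ ∀ d n : ℕ, 3 ≤ d → 2 ≤ n →
    (k d n : ℝ) < c * (d : ℝ) ^ (2 / 3 : ℝ) * (n : ℝ) ^ (2 / 3 : ℝ) * Real.log n ^ (1 / 3 : ℝ) := by
  rintro ⟨c, hc, H⟩
  obtain ⟨t, ht⟩ := exists_nat_gt (1440000 * c ^ 3 + 1)
  have t1 : (1 : ℝ) ≤ t := by linarith [show 0 < 1440000 * c ^ 3 by positivity]
  have t1' : 1 ≤ t ^ 2 := one_le_pow₀ (by exact_mod_cast t1)
  have n2 : 2 ≤ 100 * (t ^ 2) ^ 4 := by have := one_le_pow₀ (n := 4) t1'; omega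
  have h := H 3 _ le_rfl n2
  have l : (((t ^ 2) ^ 3 : ℕ) : ℝ) ≤ k 3 (100 * (t ^ 2) ^ 4) := by exact_mod_cast low _ t1'
  have h := l.trans_lt h
  push_cast at h
  have lg : Real.log (100 * ((t : ℝ) ^ 2) ^ 4) ≤ 16 * t := by
    have a : Real.log (100 * ((t : ℝ) ^ 2) ^ 4) ≤ Real.log ((2 * t) ^ 8) :=
      Real.log_le_log (by positivity) (by nlinarith [show (0 : ℝ) < t ^ 8 by positivity])
    rw [Real.log_pow] at a
    have := Real.log_le_sub_one_of_pos (show (0 : ℝ) < 2 * t by positivity)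
    push_cast at a
    linarith
  have l0 : 0 ≤ Real.log (100 * ((t : ℝ) ^ 2) ^ 4) := Real.log_nonneg (by
    have := one_le_pow₀ (n := 4) (one_le_pow₀ (n := 2) t1); linarith)
  have c3 := pow_lt_pow_left₀ h (by positivity) (show 3 ≠ 0 by norm_num)
  have r2 : ∀ x : ℝ, 0 ≤ x → (x ^ (2 / 3 : ℝ)) ^ 3 = x ^ 2 := fun x hx => by
    rw [← Real.rpow_natCast, ← Real.rpow_mul hx]; norm_num
  have r1 : ∀ x : ℝ, 0 ≤ x → (x ^ (1 / 3 : ℝ)) ^ 3 = x := fun x hx => by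
    rw [← Real.rpow_natCast, ← Real.rpow_mul hx]; norm_num
  rw [mul_pow, mul_pow, mul_pow, r2 _ (by norm_num), r2 _ (by positivity), r1 _ l0] at c3
  have e := c3.trans_le (mul_le_mul_of_nonneg_left lg (by positivity))
  have f : (t : ℝ) ^ 17 * (1440000 * c ^ 3) ≤ t ^ 17 * t :=
    mul_le_mul_of_nonneg_left (by linarith) (by positivity)
  nlinarith

end Pool.Agent.Results.MP_ae055e_co.Cex
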